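import Mathlib
import Pool.Agent.H8.Dist.Basic

/-!
# Nagata rings of distributive domains, 7: the Bezout property from many units
-/

set_option autoImplicit false

universe u

namespace Pool.Agent.H8.Nag

open Pool.Agent.H8.Dist

section good
variable {A : Type u} [Ring A] {M : Set A}

/-- `d` generates `x` at `M` -/
def Good (M : Set A) (d x : A) : Prop := ∃ s r, s ∉ M ∧ x * s = d * r

theorem Good.trans (hR : RD A) (hM : IsRes A M) {d a b : A} (h1 : Good M d a) (h2 : Good M a b) :
    Good M d b := by
  obtain ⟨s', r', hs', h1'⟩ := h1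
  obtain ⟨s, r, hs, h2'⟩ := h2
  obtain ⟨t, r'', ht, h3⟩ := ore_right hR hM r s' hs'
  refine ⟨s * t, r' * r'', hM.prime hs ht, ?_⟩
  rw [← mul_assoc, h2', mul_assoc, h3, ← mul_assoc, h1', mul_assoc]

theorem Good.refl (hM : IsRes A M) (a : A) : Good M a a := ⟨1, 1, hM.one, rfl⟩

theorem good_or (hR : RD A) (hM : IsRes A M) (a b : A) : Good M a b ∨ Good M b a := by
  obtain ⟨x, y, z, h1, h2⟩ := hR a b
  by_cases hx : x ∈ M
  · left
    refine ⟨1 - x, z, ?_, h2⟩
    intro h
    apply hM.one
    have := hM.add _ h _ hx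
    simpa using this
  · exact Or.inr ⟨x, y, hx, h1⟩

/-- the candidates for a generator -/
def cand (a b : A) : Option A → A
  | none => b
  | some δ => a + b * δ

theorem good_cand (hR : RD A) (hM : IsRes A M) (a b : A) (δ δ' : Option A) (hne : δ ≠ δ')
    (hu : ∀ x ∈ δ, ∀ y ∈ δ', IsUnit (x - y)) :
    (Good M (cand a b δ) a ∧ Good M (cand a b δ) b) ∨
      (Good M (cand a b δ') a ∧ Good M (cand a b δ') b) := by
  rcases good_or hR hM a b with hg | hg
  · -- `b s = a t`
    obtain ⟨s, t, hs, hst⟩ := id hg
    have key : ∀ x : A, ∃ s' x'', s' ∉ M ∧ x * s' = s * x'' ∧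
        (s' + t * x'' ∉ M → Good M (a + b * x) a ∧ Good M (a + b * x) b) := by
      intro x
      obtain ⟨s', x'', hs', hx⟩ := ore_right hR hM x s hs
      refine ⟨s', x'', hs', hx, fun h1 => ?_⟩
      have h2 : Good M (a + b * x) a := by
        refine ⟨s' + t * x'', s', h1, ?_⟩
        have e : b * x * s' = a * t * x'' := by rw [mul_assoc, hx, ← mul_assoc, hst]
        rw [add_mul, e]
        noncomm_ring
      exact ⟨h2, h2.trans hR hM hg⟩
    have hnone : t ∉ M → Good M b a ∧ Good M b b := fun h => ⟨⟨t, s, h, hst.symm⟩, Good.refl hM b⟩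
    match δ, δ', hne, hu with
    | none, none, hne, _ => exact absurd rfl hne
    | none, some y, _, _ =>
      by_cases ht : t ∈ M
      · right
        obtain ⟨s', x'', hs', hx, hk⟩ := key y
        apply hk
        intro h1
        apply hs'
        have := hM.sub h1 (hM.mul_right x'' _ ht)
        simpa using this
      · exact Or.inl (hnone ht)
    | some x, none, _, _ =>
      by_cases ht : t ∈ M
      · left
        obtain ⟨s', x'', hs', hx, hk⟩ := key x
        apply hk
        intro h1
        apply hs'
        have := hM.sub h1 (hM.mul_right x'' _ ht)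
        simpa using this
      · exact Or.inr (hnone ht)
    | some x, some y, _, hu =>
      obtain ⟨s₁, x₁, hs₁, hx₁, hk₁⟩ := key x
      obtain ⟨s₂, x₂, hs₂, hx₂, hk₂⟩ := key y
      by_cases h1 : s₁ + t * x₁ ∈ M
      · by_cases h2 : s₂ + t * x₂ ∈ M
        · exfalso
          obtain ⟨i, -, hi⟩ := hM.inv s hs
          have aux : ∀ z s' z'', s' ∉ M → z * s' = s * z'' → s' + t * z'' ∈ M →
              t * i * z + 1 ∈ M := by
            intro z s' z'' hs' hz hm
            by_contra hcon
            apply hM.prime hcon hs'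
            have e : (t * i * z + 1) * s' = (s' + t * z'') + t * ((i * s - 1) * z'') := by
              calc (t * i * z + 1) * s' = t * i * (z * s') + s' := by noncomm_ring
                _ = t * i * (s * z'') + s' := by rw [hz]
                _ = (s' + t * z'') + t * ((i * s - 1) * z'') := by noncomm_ring
            rw [e]
            exact hM.add _ hm _ (hM.mul_left _ _ (hM.mul_right _ _ hi))
          have h3 := aux x s₁ x₁ hs₁ hx₁ h1
          have h4 := aux y s₂ x₂ hs₂ hx₂ h2
          obtain ⟨U, hU⟩ := hu x rfl y rfl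
          have h5 : t * i ∈ M := by
            have h6 := hM.mul_right (↑U⁻¹ : A) _ (hM.sub h3 h4)
            have e : (t * i * x + 1 - (t * i * y + 1)) * (↑U⁻¹ : A) = t * i := by
              have : t * i * x + 1 - (t * i * y + 1) = t * i * (x - y) := by noncomm_ring
              rw [this, ← hU, mul_assoc, Units.mul_inv, mul_one]
            rwa [e] at h6
          apply hM.one
          have h6 := hM.sub h3 (hM.mul_right x _ h5)
          simpa using h6
        · exact Or.inr (hk₂ h2)
      · exact Or.inl (hk₁ h1)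
  · -- `a s = b t`
    obtain ⟨s, t, hs, hst⟩ := id hg
    have key : ∀ x : A, t + x * s ∉ M → Good M (a + b * x) a ∧ Good M (a + b * x) b := by
      intro x h1
      have h2 : Good M (a + b * x) b := by
        refine ⟨t + x * s, s, h1, ?_⟩
        rw [add_mul, hst]
        noncomm_ring
      exact ⟨h2.trans hR hM hg, h2⟩
    match δ, δ', hne, hu with
    | none, _, _, _ => exact Or.inl ⟨hg, Good.refl hM b⟩
    | some x, none, _, _ => exact Or.inr ⟨hg, Good.refl hM b⟩
    | some x, some y, _, hu =>
      by_cases h1 : t + x * s ∈ M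
      · by_cases h2 : t + y * s ∈ M
        · exfalso
          obtain ⟨U, hU⟩ := hu x rfl y rfl
          apply hs
          have h3 := hM.mul_left (↑U⁻¹ : A) _ (hM.sub h1 h2)
          have e : (↑U⁻¹ : A) * (t + x * s - (t + y * s)) = s := by
            have : t + x * s - (t + y * s) = (x - y) * s := by noncomm_ring
            rw [this, ← hU, ← mul_assoc, Units.inv_mul, one_mul]
          rwa [e] at h3
        · exact Or.inr (key y h2)
      · exact Or.inl (key x h1)

theorem bez_of_card (hR : RD A) (S : Set A)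
    (hS : ∀ x ∈ S, ∀ y ∈ S, x ≠ y → IsUnit (x - y))
    (hc : Cardinal.mk {M : Set A // IsRes A M} < Cardinal.mk S + 1) (a b : A) :
    ∃ w p q v v', w = a * p + b * q ∧ a = w * v ∧ b = w * v' := by
  classical
  have h1 : ∃ δ : Option S, ∀ M, IsRes A M →
      Good M (cand a b (δ.map Subtype.val)) a ∧ Good M (cand a b (δ.map Subtype.val)) b := by
    by_contra hcon
    push Not at hcon
    choose F hF1 hF2 using hcon
    have hinj : Function.Injective (fun δ : Option S => (⟨F δ, hF1 δ⟩ : {M : Set A // IsRes A M})) := by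
      intro δ δ' heq
      by_contra hne
      have hFF : F δ = F δ' := congrArg Subtype.val heq
      have hne' : δ.map Subtype.val ≠ δ'.map Subtype.val := by
        intro h
        exact hne (Option.map_injective Subtype.val_injective h)
      rcases good_cand hR (hF1 δ) a b _ _ hne' (by
        intro x hx y hy
        rw [Option.mem_def, Option.map_eq_some_iff] at hx hy
        obtain ⟨x', hx', rfl⟩ := hx
        obtain ⟨y', hy', rfl⟩ := hy
        apply hS _ x'.2 _ y'.2
        intro h
        apply hne
        rw [hx', hy', Subtype.ext h]) with h2 | h2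
      · exact hF2 δ h2.1 h2.2
      · rw [hFF] at h2
        exact hF2 δ' h2.1 h2.2
    have h2 := Cardinal.mk_le_of_injective hinj
    rw [Cardinal.mk_option] at h2
    exact absurd hc (not_lt.2 h2)
  obtain ⟨δ, hδ⟩ := h1
  obtain ⟨d, hd⟩ : ∃ d, d = cand a b (δ.map Subtype.val) := ⟨_, rfl⟩
  rw [← hd] at hδ
  have key : ∀ x : A, (∀ M, IsRes A M → Good M d x) → ∃ r, x = d * r := by
    intro x hx
    let T : Submodule Aᵐᵒᵖ A :=
      { carrier := {t | ∃ r, x * t = d * r}
        zero_mem' := ⟨0, by simp⟩
        add_mem' := by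
          rintro t t' ⟨r, h⟩ ⟨r', h'⟩
          exact ⟨r + r', by rw [mul_add, mul_add, h, h']⟩
        smul_mem' := by
          rintro c t ⟨r, h⟩
          exact ⟨r * c.unop, by rw [MulOpposite.smul_eq_mul_unop, ← mul_assoc, h, mul_assoc]⟩ }
    by_cases hT : (1 : A) ∈ T
    · obtain ⟨r, hr⟩ := hT
      exact ⟨r, by rw [← hr, mul_one]⟩
    · exfalso
      obtain ⟨M, hM, hsub⟩ := exists_res_of_right hR T hT
      obtain ⟨s, r, hs, hsr⟩ := hx M hM
      exact hs (hsub ⟨r, hsr⟩)
  obtain ⟨v, hv⟩ := key a (fun M hM => (hδ M hM).1)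
  obtain ⟨v', hv'⟩ := key b (fun M hM => (hδ M hM).2)
  rcases δ with _ | δ
  · exact ⟨d, 0, 1, v, v', by rw [hd]; simp [cand], hv, hv'⟩
  · exact ⟨d, 1, δ, v, v', by rw [hd]; simp [cand], hv, hv'⟩

end good

end Pool.Agent.H8.Nag
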