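import Mathlib
import Pool.Agent.H8.Dist.Basic

/-!
# Nagata rings of distributive domains, 1: scaling

`A` is a left and right distributive domain.  A finite family of elements of `A`, not all zero, can be
multiplied on the left by finitely many fractions so that the resulting elements lie in `A` and in
no common maximal ideal.
-/

set_option autoImplicit false

universe u

namespace Pool.Agent.H8.Nag

open Pool.Agent.H8.Dist

section scale
variable {A : Type u} [Ring A] [IsDomain A]

theorem exists_res (hL : LD A) : ∃ M : Set A, IsRes A M := by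
  obtain ⟨M, hM, -⟩ := exists_res_of_left hL (⊥ : Ideal A) (by simp)
  exact ⟨M, hM⟩

omit [IsDomain A] in
theorem IsRes.ne_zero {M : Set A} (hM : IsRes A M) {x : A} (hx : x ∉ M) : x ≠ 0 := by
  rintro rfl
  exact hx hM.zero

omit [IsDomain A] in
/-- left common multiples -/
theorem left_common (hL : LD A) (t c : A) (hc : c ≠ 0) : ∃ a r : A, a ≠ 0 ∧ a * t = r * c := by
  obtain ⟨x, y, z, h1, h2⟩ := hL t c
  by_cases hx : x = 0
  · subst hx
    refine ⟨z, 1, ?_, by simpa using h2.symm⟩
    rintro rfl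
    apply hc
    simpa using h2
  · exact ⟨x, y, hx, h1⟩

/-- `e` is a multiple of the family `c` by a left fraction -/
def LFrac {n : ℕ} (c e : Fin n → A) : Prop := ∃ a r : A, a ≠ 0 ∧ ∀ k, a * e k = r * c k

theorem exists_lfrac (hR : RD A) (hL : LD A) {n : ℕ} (c : Fin n → A) (i₀ : Fin n) (hi₀ : c i₀ ≠ 0)
    {M : Set A} (hM : IsRes A M) : ∃ e : Fin n → A, LFrac c e ∧ ∃ k, e k ∉ M := by
  obtain ⟨j, hj⟩ := exists_local_gen hR hM c i₀
  choose s b hs hsb using hj
  obtain ⟨t, b', ht, hb'⟩ := ore_left_fin hL hM b s hs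
  have hcj : c j ≠ 0 := by
    intro h
    have h1 := hsb i₀
    rw [h, zero_mul] at h1
    rcases mul_eq_zero.1 h1 with h2 | h2
    · exact hi₀ h2
    · exact hs i₀ (by rw [h2]; exact hM.zero)
  have hbj : b j = s j := by
    have h1 := hsb j
    exact (mul_left_cancel₀ hcj h1).symm
  have hb'j : b' j = t := by
    have h1 := hb' j
    rw [hbj] at h1
    exact (mul_right_cancel₀ (IsRes.ne_zero hM (hs j)) h1).symm
  obtain ⟨a, r, ha, har⟩ := left_common hL t (c j) hcj
  refine ⟨b', ⟨a, r, ha, fun k => ?_⟩, j, by rw [hb'j]; exact ht⟩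
  apply mul_right_cancel₀ (IsRes.ne_zero hM (hs k))
  calc a * b' k * s k = a * (t * b k) := by rw [mul_assoc, ← hb' k]
    _ = r * c j * b k := by rw [← mul_assoc, har]
    _ = r * (c k * s k) := by rw [mul_assoc, ← hsb k]
    _ = r * c k * s k := by rw [mul_assoc]

/-- finitely many left fractions have a common denominator -/
theorem common_denom (hL : LD A) {n m : ℕ} (c : Fin n → A) (e : Fin m → Fin n → A)
    (he : ∀ j, LFrac c (e j)) :
    ∃ (a : A) (r : Fin m → A), a ≠ 0 ∧ ∀ j k, a * e j k = r j * c k := by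
  induction m with
  | zero => exact ⟨1, fun j => j.elim0, one_ne_zero, fun j => j.elim0⟩
  | succ m ih =>
    obtain ⟨a, r, ha, har⟩ := ih (fun j => e j.succ) (fun j => he _)
    obtain ⟨a', r', ha', har'⟩ := he 0
    obtain ⟨x, y, hx, hxy⟩ := left_common hL a a' ha'
    refine ⟨x * a, Fin.cons (y * r') (fun j => x * r j), mul_ne_zero hx ha, ?_⟩
    intro j k
    refine Fin.cases ?_ (fun j => ?_) j
    · simp only [Fin.cons_zero]
      rw [hxy, mul_assoc, har' k, mul_assoc]
    · simp only [Fin.cons_succ]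
      rw [mul_assoc, har j k, mul_assoc]

/-- the scaling lemma, left version -/
theorem scale_left (hR : RD A) (hL : LD A) {n : ℕ} (c : Fin n → A) (i₀ : Fin n)
    (hi₀ : c i₀ ≠ 0) : ∃ (m : ℕ) (a : A) (r : Fin m → A) (e : Fin m → Fin n → A), a ≠ 0 ∧
      (∀ j k, a * e j k = r j * c k) ∧ ∀ M, IsRes A M → ∃ j k, e j k ∉ M := by
  classical
  set X : Set A := {x | ∃ e : Fin n → A, LFrac c e ∧ ∃ k, x = e k} with hX
  have h1 : (1 : A) ∈ Submodule.span A X := by
    by_contra h1
    obtain ⟨M, hM, hsub⟩ := exists_res_of_left hL _ h1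
    obtain ⟨e, he, k, hk⟩ := exists_lfrac hR hL c i₀ hi₀ hM
    exact hk (hsub (Submodule.subset_span ⟨e, he, k, rfl⟩))
  obtain ⟨F, hF, h2⟩ := Submodule.mem_span_finite_of_mem_span h1
  have h3 : ∀ x : F, ∃ e : Fin n → A, LFrac c e ∧ ∃ k, (x : A) = e k := fun x => hF x.2
  choose e he k hk using h3
  let φ := F.equivFin
  obtain ⟨a, r, ha, har⟩ := common_denom hL c (fun j => e (φ.symm j)) (fun j => he _)
  refine ⟨F.card, a, r, fun j => e (φ.symm j), ha, har, ?_⟩
  intro M hM
  by_contra hcon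
  push Not at hcon
  apply hM.one
  have : (Submodule.span A (F : Set A) : Set A) ⊆ M := by
    intro y hy
    refine Submodule.span_induction (p := fun y _ => y ∈ M) ?_ hM.zero
      (fun x y _ _ hx hy => hM.add _ hx _ hy) (fun a x _ hx => hM.mul_left a _ hx) hy
    intro x hx
    have := hcon (φ ⟨x, hx⟩) (k ⟨x, hx⟩)
    rw [Equiv.symm_apply_apply, ← hk ⟨x, hx⟩] at this
    exact this
  exact this h2

omit [IsDomain A] in
theorem isRes_op' {M : Set A} (h : IsRes A M) : IsRes Aᵐᵒᵖ (MulOpposite.unop ⁻¹' M) where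
  zero := h.zero
  add := fun x hx y hy => h.add _ hx _ hy
  mul_left := fun a x hx => h.mul_right _ _ hx
  mul_right := fun a x hx => h.mul_left _ _ hx
  one := h.one
  inv := fun x hx => by
    obtain ⟨y, h1, h2⟩ := h.inv _ hx
    exact ⟨MulOpposite.op y, by simpa using h2, by simpa using h1⟩

/-- the scaling lemma, right version -/
theorem scale_right (hR : RD A) (hL : LD A) {n : ℕ} (c : Fin n → A) (i₀ : Fin n)
    (hi₀ : c i₀ ≠ 0) : ∃ (m : ℕ) (a : A) (r : Fin m → A) (e : Fin m → Fin n → A), a ≠ 0 ∧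
      (∀ j k, e j k * a = c k * r j) ∧ ∀ M, IsRes A M → ∃ j k, e j k ∉ M := by
  obtain ⟨m, a, r, e, ha, har, hM⟩ := scale_left (A := Aᵐᵒᵖ) (RD_op hL) (LD_op hR)
    (fun k => MulOpposite.op (c k)) i₀ (by simpa using hi₀)
  refine ⟨m, a.unop, fun j => (r j).unop, fun j k => (e j k).unop, ?_, ?_, ?_⟩
  · simpa using ha
  · intro j k
    have := congrArg MulOpposite.unop (har j k)
    simpa using this
  · intro M hM'
    obtain ⟨j, k, hjk⟩ := hM _ (isRes_op' hM')
    exact ⟨j, k, hjk⟩

end scale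

end Pool.Agent.H8.Nag
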