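import Mathlib
import Pool.Agent.H8.Nag.Scale

/-!
# Nagata rings of distributive domains, 2: polynomials
-/

set_option autoImplicit false

universe u

namespace Pool.Agent.H8.Nag

open Pool.Agent.H8.Dist Polynomial

section gauss
variable {A : Type u} [Ring A]

/-- local Gauss lemma -/
theorem gauss {M : Set A} (hM : IsRes A M) {f g : A[X]} (hf : ∃ i, f.coeff i ∉ M)
    (hg : ∃ j, g.coeff j ∉ M) : ∃ k, (f * g).coeff k ∉ M := by
  classical
  obtain ⟨i, hi, hi'⟩ : ∃ i, f.coeff i ∉ M ∧ ∀ a < i, f.coeff a ∈ M :=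
    ⟨Nat.find hf, Nat.find_spec hf, fun a ha => by simpa using Nat.find_min hf ha⟩
  obtain ⟨j, hj, hj'⟩ : ∃ j, g.coeff j ∉ M ∧ ∀ b < j, g.coeff b ∈ M :=
    ⟨Nat.find hg, Nat.find_spec hg, fun a ha => by simpa using Nat.find_min hg ha⟩
  refine ⟨i + j, fun h => ?_⟩
  have hmem : ((i, j) : ℕ × ℕ) ∈ Finset.HasAntidiagonal.antidiagonal (i + j) :=
    Finset.HasAntidiagonal.mem_antidiagonal.2 rfl
  rw [coeff_mul, ← Finset.add_sum_erase _ _ hmem] at h
  have h2 : ∑ x ∈ (Finset.HasAntidiagonal.antidiagonal (i + j)).erase (i, j),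
      f.coeff x.1 * g.coeff x.2 ∈ M := by
    apply hM.sum
    intro x hx
    obtain ⟨h3, h4'⟩ := Finset.mem_erase.1 hx
    have h4 : x.1 + x.2 = i + j := Finset.HasAntidiagonal.mem_antidiagonal.1 h4'
    rcases lt_trichotomy x.1 i with h5 | h5 | h5
    · exact hM.mul_right _ _ (hi' _ h5)
    · exfalso
      apply h3
      ext
      · exact h5
      · simp only
        omega
    · exact hM.mul_left _ _ (hj' _ (by omega))
  have h3 := hM.sub h h2
  rw [add_sub_cancel_right] at h3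
  exact hM.prime hi hj h3

/-- no residue place kills the polynomial -/
def Prim (f : A[X]) : Prop := ∀ M, IsRes A M → ∃ n, f.coeff n ∉ M

/-- no residue place kills both polynomials -/
def Prim2 (f g : A[X]) : Prop := ∀ M, IsRes A M → (∃ n, f.coeff n ∉ M) ∨ ∃ n, g.coeff n ∉ M

theorem Prim.mul {f g : A[X]} (hf : Prim f) (hg : Prim g) : Prim (f * g) :=
  fun M hM => gauss hM (hf M hM) (hg M hM)

theorem Prim.one : Prim (1 : A[X]) := fun M hM => ⟨0, by simpa using hM.one⟩

theorem coeff_mul_mem_left {M : Set A} (hM : IsRes A M) {f g : A[X]} (hf : ∀ i, f.coeff i ∈ M)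
    (k : ℕ) : (f * g).coeff k ∈ M := by
  rw [coeff_mul]
  exact hM.sum _ _ fun x _ => hM.mul_right _ _ (hf _)

theorem coeff_mul_mem_right {M : Set A} (hM : IsRes A M) {f g : A[X]} (hg : ∀ i, g.coeff i ∈ M)
    (k : ℕ) : (f * g).coeff k ∈ M := by
  rw [coeff_mul]
  exact hM.sum _ _ fun x _ => hM.mul_left _ _ (hg _)

/-- the coefficients of `∑ j, p j * X ^ (N j)` when the `p j` have degree less than `N` -/
theorem coeff_block {m N : ℕ} (p : Fin m → A[X]) (hp : ∀ j k, N ≤ k → (p j).coeff k = 0)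
    (j : Fin m) (k : ℕ) (hk : k < N) :
    (∑ j, p j * X ^ (N * (j : ℕ))).coeff (k + N * j) = (p j).coeff k := by
  classical
  rw [finsetSum_coeff, Finset.sum_eq_single j]
  · rw [coeff_mul_X_pow]
  · intro i _ hij
    rw [coeff_mul_X_pow']
    split_ifs with h
    · apply hp
      have h1 : (i : ℕ) ≠ j := fun h => hij (Fin.ext h)
      have h2 : (i : ℕ) < j := by
        rcases lt_or_gt_of_ne h1 with h3 | h3
        · exact h3
        · exfalso
          have h4 : N * (j + 1) ≤ N * i := Nat.mul_le_mul_left _ h3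
          rw [Nat.mul_add, Nat.mul_one] at h4
          omega
      have h3 : N * (i + 1) ≤ N * j := Nat.mul_le_mul_left _ h2
      rw [Nat.mul_add, Nat.mul_one] at h3
      omega
    · rfl
  · intro h
    exact absurd (Finset.mem_univ j) h

end gauss

section ore
variable {A : Type u} [Ring A] [IsDomain A]

omit [IsDomain A] in
theorem right_common (hR : RD A) (t c : A) (hc : c ≠ 0) : ∃ a r : A, a ≠ 0 ∧ t * a = c * r := by
  obtain ⟨a, r, ha, h⟩ := left_common (A := Aᵐᵒᵖ) (LD_op hR) (MulOpposite.op t)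
    (MulOpposite.op c) (by simpa using hc)
  refine ⟨a.unop, r.unop, by simpa using ha, ?_⟩
  have := congrArg MulOpposite.unop h
  simpa using this

theorem pore_step (hR : RD A) (n : ℕ)
    (ih : ∀ f s : A[X], f ≠ 0 → s ≠ 0 → f.natDegree + s.natDegree < n →
      ∃ g h, g ≠ 0 ∧ h ≠ 0 ∧ f * g = s * h)
    (f s : A[X]) (hf : f ≠ 0) (hs : s ≠ 0) (hn : f.natDegree + s.natDegree ≤ n)
    (hle : s.natDegree ≤ f.natDegree) : ∃ g h, g ≠ 0 ∧ h ≠ 0 ∧ f * g = s * h := by
  obtain ⟨x, y, hx, hxy⟩ := right_common hR f.leadingCoeff s.leadingCoeff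
    (leadingCoeff_ne_zero.2 hs)
  have hy : y ≠ 0 := by
    rintro rfl
    rw [mul_zero] at hxy
    rcases mul_eq_zero.1 hxy with h | h
    · exact leadingCoeff_ne_zero.2 hf h
    · exact hx h
  obtain ⟨m, hm⟩ := Nat.exists_eq_add_of_le hle
  obtain ⟨w, hw⟩ : ∃ w : A[X], w = C y * X ^ m := ⟨_, rfl⟩
  have hwn : w ≠ 0 := by
    rw [hw]
    exact mul_ne_zero (C_ne_zero.2 hy) (pow_ne_zero _ X_ne_zero)
  have hwd : w.natDegree = m := by rw [hw]; exact natDegree_C_mul_X_pow _ _ hy
  have hwl : w.leadingCoeff = y := by rw [hw]; exact leadingCoeff_C_mul_X_pow _ _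
  have hCx : (C x : A[X]) ≠ 0 := C_ne_zero.2 hx
  by_cases h0 : f * C x - s * w = 0
  · exact ⟨C x, w, hCx, hwn, sub_eq_zero.1 h0⟩
  · have hd1 : (f * C x).natDegree = f.natDegree := by
      rw [natDegree_mul hf hCx, natDegree_C, add_zero]
    have hd2 : (s * w).natDegree = f.natDegree := by
      rw [natDegree_mul hs hwn, hwd, hm]
    have hd : (f * C x).degree = (s * w).degree := by
      rw [degree_eq_natDegree (mul_ne_zero hf hCx), degree_eq_natDegree (mul_ne_zero hs hwn),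
        hd1, hd2]
    have hl : (f * C x).leadingCoeff = (s * w).leadingCoeff := by
      rw [leadingCoeff_mul, leadingCoeff_mul, leadingCoeff_C, hwl, hxy]
    have hlt := degree_sub_lt_left hd (mul_ne_zero hf hCx) hl
    have hlt' : (f * C x - s * w).natDegree < f.natDegree := by
      rw [← hd1]
      exact natDegree_lt_natDegree h0 hlt
    obtain ⟨g, h, hg, hh, hgh⟩ := ih (f * C x - s * w) s h0 hs (by omega)
    refine ⟨C x * g, h + w * g, mul_ne_zero hCx hg, ?_, ?_⟩
    · intro h1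
      have h2 : s * (h + w * g) = f * (C x * g) := by
        rw [mul_add, ← hgh]; noncomm_ring
      rw [h1, mul_zero] at h2
      exact mul_ne_zero hf (mul_ne_zero hCx hg) h2.symm
    · rw [mul_add, ← hgh]; noncomm_ring

theorem pore_right (hR : RD A) (f s : A[X]) (hf : f ≠ 0) (hs : s ≠ 0) :
    ∃ g h, g ≠ 0 ∧ h ≠ 0 ∧ f * g = s * h := by
  obtain ⟨n, hn⟩ : ∃ n, f.natDegree + s.natDegree = n := ⟨_, rfl⟩
  induction n using Nat.strong_induction_on generalizing f s with
  | _ n ih =>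
    have ih' : ∀ f s : A[X], f ≠ 0 → s ≠ 0 → f.natDegree + s.natDegree < n →
        ∃ g h, g ≠ 0 ∧ h ≠ 0 ∧ f * g = s * h :=
      fun f s hf hs hlt => ih _ hlt f s hf hs rfl
    rcases le_total s.natDegree f.natDegree with h | h
    · exact pore_step hR n ih' f s hf hs hn.le h
    · obtain ⟨g, h, hg, hh, hgh⟩ := pore_step hR n ih' s f hs hf (by omega) h
      exact ⟨h, g, hh, hg, hgh.symm⟩

/-- scaling of two polynomials, left version -/
theorem scaleP_left (hR : RD A) (hL : LD A) (f g : A[X]) (h0 : f ≠ 0 ∨ g ≠ 0) :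
    ∃ (a : A) (r f' g' : A[X]), a ≠ 0 ∧ r ≠ 0 ∧ C a * f' = r * f ∧ C a * g' = r * g ∧
      Prim2 f' g' := by
  classical
  obtain ⟨N, hNf, hNg⟩ : ∃ N, f.natDegree < N ∧ g.natDegree < N :=
    ⟨max f.natDegree g.natDegree + 1, by omega, by omega⟩
  obtain ⟨c, hc⟩ : ∃ c : Fin (N + N) → A, c = Fin.addCases (fun k => f.coeff k)
    (fun k => g.coeff k) := ⟨_, rfl⟩
  have hc1 : ∀ k : Fin N, c (Fin.castAdd N k) = f.coeff k := fun k => by
    rw [hc]; exact Fin.addCases_left _
  have hc2 : ∀ k : Fin N, c (Fin.natAdd N k) = g.coeff k := fun k => by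
    rw [hc]; exact Fin.addCases_right _
  obtain ⟨i₀, hi₀⟩ : ∃ i, c i ≠ 0 := by
    rcases h0 with h | h
    · exact ⟨Fin.castAdd N ⟨f.natDegree, hNf⟩, by rw [hc1]; simpa using h⟩
    · exact ⟨Fin.natAdd N ⟨g.natDegree, hNg⟩, by rw [hc2]; simpa using h⟩
  obtain ⟨m, a, r, e, ha, har, hM⟩ := scale_left hR hL c i₀ hi₀
  obtain ⟨p, hp⟩ : ∃ p : Fin m → A[X], p = fun j => ∑ k : Fin N,
    monomial (k : ℕ) (e j (Fin.castAdd N k)) := ⟨_, rfl⟩
  obtain ⟨q, hq⟩ : ∃ q : Fin m → A[X], q = fun j => ∑ k : Fin N,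
    monomial (k : ℕ) (e j (Fin.natAdd N k)) := ⟨_, rfl⟩
  have hcp : ∀ j (k : ℕ), (p j).coeff k = if h : k < N then e j (Fin.castAdd N ⟨k, h⟩) else 0 := by
    intro j k
    rw [hp]
    simp only [finsetSum_coeff, coeff_monomial]
    split_ifs with h
    · rw [Finset.sum_eq_single ⟨k, h⟩]
      · simp
      · intro b _ hb
        rw [if_neg]
        intro h1
        exact hb (Fin.ext h1)
      · intro h1; exact absurd (Finset.mem_univ _) h1
    · apply Finset.sum_eq_zero
      intro b _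
      rw [if_neg]
      intro h1
      apply h
      rw [← h1]; exact b.2
  have hcq : ∀ j (k : ℕ), (q j).coeff k = if h : k < N then e j (Fin.natAdd N ⟨k, h⟩) else 0 := by
    intro j k
    rw [hq]
    simp only [finsetSum_coeff, coeff_monomial]
    split_ifs with h
    · rw [Finset.sum_eq_single ⟨k, h⟩]
      · simp
      · intro b _ hb
        rw [if_neg]
        intro h1
        exact hb (Fin.ext h1)
      · intro h1; exact absurd (Finset.mem_univ _) h1
    · apply Finset.sum_eq_zero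
      intro b _
      rw [if_neg]
      intro h1
      apply h
      rw [← h1]; exact b.2
  have hpa : ∀ j, C a * p j = C (r j) * f := by
    intro j
    ext k
    rw [coeff_C_mul, coeff_C_mul, hcp]
    split_ifs with h
    · rw [har, hc1]
    · rw [mul_zero, coeff_eq_zero_of_natDegree_lt (by omega), mul_zero]
  have hqa : ∀ j, C a * q j = C (r j) * g := by
    intro j
    ext k
    rw [coeff_C_mul, coeff_C_mul, hcq]
    split_ifs with h
    · rw [har, hc2]
    · rw [mul_zero, coeff_eq_zero_of_natDegree_lt (by omega), mul_zero]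
  obtain ⟨R, hRd⟩ : ∃ R : A[X], R = ∑ j, C (r j) * X ^ (N * (j : ℕ)) := ⟨_, rfl⟩
  obtain ⟨f', hf'⟩ : ∃ f' : A[X], f' = ∑ j, p j * X ^ (N * (j : ℕ)) := ⟨_, rfl⟩
  obtain ⟨g', hg'⟩ : ∃ g' : A[X], g' = ∑ j, q j * X ^ (N * (j : ℕ)) := ⟨_, rfl⟩
  have h1 : C a * f' = R * f := by
    rw [hf', hRd, Finset.mul_sum, Finset.sum_mul]
    refine Finset.sum_congr rfl fun j _ => ?_
    rw [← mul_assoc, hpa, mul_assoc, mul_assoc, (commute_X_pow f (N * (j : ℕ))).eq]
  have h2 : C a * g' = R * g := by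
    rw [hg', hRd, Finset.mul_sum, Finset.sum_mul]
    refine Finset.sum_congr rfl fun j _ => ?_
    rw [← mul_assoc, hqa, mul_assoc, mul_assoc, (commute_X_pow g (N * (j : ℕ))).eq]
  have hP : Prim2 f' g' := by
    intro M hMr
    obtain ⟨j, k, hjk⟩ := hM M hMr
    revert hjk
    refine Fin.addCases (fun k => ?_) (fun k => ?_) k
    · intro hjk
      left
      refine ⟨k + N * j, ?_⟩
      rw [hf', coeff_block p (fun j k hk => by rw [hcp, dif_neg (by omega)]) j k k.2, hcp,
        dif_pos k.2]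
      exact hjk
    · intro hjk
      right
      refine ⟨k + N * j, ?_⟩
      rw [hg', coeff_block q (fun j k hk => by rw [hcq, dif_neg (by omega)]) j k k.2, hcq,
        dif_pos k.2]
      exact hjk
  refine ⟨a, R, f', g', ha, ?_, h1, h2, hP⟩
  rintro rfl
  rw [zero_mul] at h1 h2
  have hCa : (C a : A[X]) ≠ 0 := C_ne_zero.2 ha
  have h3 : f' = 0 := (mul_eq_zero.1 h1).resolve_left hCa
  have h4 : g' = 0 := (mul_eq_zero.1 h2).resolve_left hCa
  obtain ⟨M, hMr⟩ := exists_res (A := A) hL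
  rcases hP M hMr with ⟨n, hn⟩ | ⟨n, hn⟩
  · apply hn; rw [h3]; simpa using hMr.zero
  · apply hn; rw [h4]; simpa using hMr.zero

end ore

section op
variable {A : Type u} [Ring A]

/-- the polynomial over the opposite ring with the same coefficients -/
noncomputable def opp (f : A[X]) : Aᵐᵒᵖ[X] := opRingEquiv A (MulOpposite.op f)

theorem coeff_opp (f : A[X]) (n : ℕ) : (opp f).coeff n = MulOpposite.op (f.coeff n) := by
  unfold opp
  rw [coeff_opRingEquiv]
  rfl

theorem opp_mul (f g : A[X]) : opp (f * g) = opp g * opp f := by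
  unfold opp
  rw [← map_mul]
  rfl

theorem opp_inj {f g : A[X]} (h : opp f = opp g) : f = g := by
  unfold opp at h
  exact MulOpposite.op_injective ((opRingEquiv A).injective h)

theorem opp_surj (g : Aᵐᵒᵖ[X]) : ∃ f : A[X], opp f = g := by
  refine ⟨MulOpposite.unop ((opRingEquiv A).symm g), ?_⟩
  unfold opp
  simp

theorem opp_zero : opp (0 : A[X]) = 0 := by
  unfold opp
  simp

theorem opp_C (a : A) : opp (C a) = C (MulOpposite.op a) := by
  ext n
  rw [coeff_opp, coeff_C, coeff_C]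
  split_ifs <;> simp

theorem prim_opp {f : A[X]} : Prim (opp f) ↔ Prim f := by
  constructor
  · intro h M hM
    obtain ⟨n, hn⟩ := h _ (isRes_op' hM)
    exact ⟨n, by rw [coeff_opp] at hn; exact hn⟩
  · intro h M hM
    obtain ⟨n, hn⟩ := h _ (isRes_unop hM)
    exact ⟨n, by rw [coeff_opp]; exact hn⟩

theorem prim2_opp {f g : A[X]} : Prim2 (opp f) (opp g) ↔ Prim2 f g := by
  constructor
  · intro h M hM
    rcases h _ (isRes_op' hM) with ⟨n, hn⟩ | ⟨n, hn⟩
    · exact Or.inl ⟨n, by rw [coeff_opp] at hn; exact hn⟩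
    · exact Or.inr ⟨n, by rw [coeff_opp] at hn; exact hn⟩
  · intro h M hM
    rcases h _ (isRes_unop hM) with ⟨n, hn⟩ | ⟨n, hn⟩
    · exact Or.inl ⟨n, by rw [coeff_opp]; exact hn⟩
    · exact Or.inr ⟨n, by rw [coeff_opp]; exact hn⟩

end op

end Pool.Agent.H8.Nag
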