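import Mathlib
import Pool.Agent.H8.Nag.Poly

/-!
# Nagata rings of distributive domains, 3: the Ore condition and the Bezout identity for polynomials
-/

set_option autoImplicit false

universe u

namespace Pool.Agent.H8.Nag

open Pool.Agent.H8.Dist Polynomial

section ore
variable {A : Type u} [Ring A] [IsDomain A]

theorem Prim.ne_zero (hL : LD A) {s : A[X]} (hs : Prim s) : s ≠ 0 := by
  rintro rfl
  obtain ⟨M, hM⟩ := exists_res (A := A) hL
  obtain ⟨n, hn⟩ := hs M hM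
  apply hn
  simpa using hM.zero

theorem scaleP_right (hR : RD A) (hL : LD A) (f g : A[X]) (h0 : f ≠ 0 ∨ g ≠ 0) :
    ∃ (a : A) (r f' g' : A[X]), a ≠ 0 ∧ r ≠ 0 ∧ f' * C a = f * r ∧ g' * C a = g * r ∧
      Prim2 f' g' := by
  have h0' : opp f ≠ 0 ∨ opp g ≠ 0 := by
    rcases h0 with h | h
    · exact Or.inl fun h1 => h (opp_inj (h1.trans opp_zero.symm))
    · exact Or.inr fun h1 => h (opp_inj (h1.trans opp_zero.symm))
  obtain ⟨a, r, f', g', ha, hr, h1, h2, h3⟩ := scaleP_left (A := Aᵐᵒᵖ) (RD_op hL) (LD_op hR)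
    (opp f) (opp g) h0'
  obtain ⟨r, rfl⟩ := opp_surj r
  obtain ⟨f', rfl⟩ := opp_surj f'
  obtain ⟨g', rfl⟩ := opp_surj g'
  obtain ⟨a, rfl⟩ : ∃ b : A, MulOpposite.op b = a := ⟨a.unop, rfl⟩
  rw [← opp_C, ← opp_mul, ← opp_mul] at h1 h2
  refine ⟨a, r, f', g', ?_, ?_, opp_inj h1, opp_inj h2, prim2_opp.1 h3⟩
  · rintro rfl
    exact ha (by simp)
  · rintro rfl
    exact hr opp_zero

/-- the right Ore condition for the polynomials that no residue place kills -/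
theorem ore_right (hR : RD A) (hL : LD A) (f s : A[X]) (hs : Prim s) :
    ∃ g h, Prim g ∧ f * g = s * h := by
  by_cases hf : f = 0
  · exact ⟨1, 0, Prim.one, by rw [hf]; simp⟩
  · have hs0 := hs.ne_zero hL
    obtain ⟨g₀, h₀, hg₀, hh₀, h1⟩ := pore_right hR f s hf hs0
    obtain ⟨a, r, g, h, ha, hr, h2, h3, h4⟩ := scaleP_right hR hL g₀ h₀ (Or.inl hg₀)
    have hCa : (C a : A[X]) ≠ 0 := C_ne_zero.2 ha
    have h5 : f * g = s * h := by
      apply mul_right_cancel₀ hCa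
      rw [mul_assoc, h2, mul_assoc, h3, ← mul_assoc, ← mul_assoc, h1]
    refine ⟨g, h, ?_, h5⟩
    intro M hM
    rcases h4 M hM with h6 | h6
    · exact h6
    · obtain ⟨k, hk⟩ := gauss hM (hs M hM) h6
      by_contra hcon
      push Not at hcon
      apply hk
      rw [← h5]
      exact coeff_mul_mem_right hM hcon k

/-- the left Ore condition -/
theorem ore_left (hR : RD A) (hL : LD A) (f s : A[X]) (hs : Prim s) :
    ∃ g h, Prim g ∧ g * f = h * s := by
  obtain ⟨g, h, hg, hgh⟩ := ore_right (A := Aᵐᵒᵖ) (RD_op hL) (LD_op hR) (opp f) (opp s)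
    (prim_opp.2 hs)
  obtain ⟨g, rfl⟩ := opp_surj g
  obtain ⟨h, rfl⟩ := opp_surj h
  rw [← opp_mul, ← opp_mul] at hgh
  exact ⟨g, h, prim_opp.1 hg, opp_inj hgh⟩

omit [IsDomain A] in
theorem prim_add {f g : A[X]} (h : Prim2 f g) {N : ℕ} (hN : f.natDegree < N) :
    Prim (f + g * X ^ N) := by
  intro M hM
  rcases h M hM with ⟨n, hn⟩ | ⟨n, hn⟩
  · have hn' : n < N := by
      by_contra hcon
      apply hn
      rw [coeff_eq_zero_of_natDegree_lt (by omega)]
      exact hM.zero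
    refine ⟨n, ?_⟩
    rw [coeff_add, coeff_mul_X_pow', if_neg (by omega), add_zero]
    exact hn
  · refine ⟨n + N, ?_⟩
    rw [coeff_add, coeff_mul_X_pow, coeff_eq_zero_of_natDegree_lt (by omega), zero_add]
    exact hn

/-- the Bezout identity: `f` and `g` are right multiples of `f + g * X ^ N`, up to denominators -/
theorem bezP_right (hR : RD A) (hL : LD A) (f g : A[X]) (h0 : f ≠ 0 ∨ g ≠ 0) :
    ∃ (N : ℕ) (u v u' v' : A[X]), Prim u ∧ Prim u' ∧ f * u = (f + g * X ^ N) * v ∧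
      g * u' = (f + g * X ^ N) * v' := by
  obtain ⟨a, r, f', g', ha, hr, h1, h2, h3⟩ := scaleP_left hR hL f g h0
  have hP := prim_add h3 (Nat.lt_succ_self f'.natDegree)
  obtain ⟨N, hN⟩ : ∃ N, N = f'.natDegree.succ := ⟨_, rfl⟩
  rw [← hN] at hP
  have h4 : C a * (f' + g' * X ^ N) = r * (f + g * X ^ N) := by
    rw [mul_add, mul_add, ← mul_assoc, ← mul_assoc, h1, h2]
  obtain ⟨u, v, hu, huv⟩ := ore_right hR hL f' _ hP
  obtain ⟨u', v', hu', huv'⟩ := ore_right hR hL g' _ hP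
  refine ⟨N, u, v, u', v', hu, hu', ?_, ?_⟩
  · apply mul_left_cancel₀ hr
    rw [← mul_assoc, ← h1, mul_assoc, huv, ← mul_assoc, h4, mul_assoc]
  · apply mul_left_cancel₀ hr
    rw [← mul_assoc, ← h2, mul_assoc, huv', ← mul_assoc, h4, mul_assoc]

omit [IsDomain A] in
theorem opp_X_pow (N : ℕ) : opp (X ^ N : A[X]) = X ^ N := by
  ext n
  rw [coeff_opp, coeff_X_pow, coeff_X_pow]
  split_ifs <;> simp

omit [IsDomain A] in
theorem opp_add (f g : A[X]) : opp (f + g) = opp f + opp g := by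
  ext n
  rw [coeff_opp, coeff_add, coeff_add, coeff_opp, coeff_opp]
  simp

theorem bezP_left (hR : RD A) (hL : LD A) (f g : A[X]) (h0 : f ≠ 0 ∨ g ≠ 0) :
    ∃ (N : ℕ) (u v u' v' : A[X]), Prim u ∧ Prim u' ∧ u * f = v * (f + g * X ^ N) ∧
      u' * g = v' * (f + g * X ^ N) := by
  have h0' : opp f ≠ 0 ∨ opp g ≠ 0 := by
    rcases h0 with h | h
    · exact Or.inl fun h1 => h (opp_inj (h1.trans opp_zero.symm))
    · exact Or.inr fun h1 => h (opp_inj (h1.trans opp_zero.symm))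
  obtain ⟨N, u, v, u', v', hu, hu', h1, h2⟩ := bezP_right (A := Aᵐᵒᵖ) (RD_op hL) (LD_op hR)
    (opp f) (opp g) h0'
  obtain ⟨u, rfl⟩ := opp_surj u
  obtain ⟨v, rfl⟩ := opp_surj v
  obtain ⟨u', rfl⟩ := opp_surj u'
  obtain ⟨v', rfl⟩ := opp_surj v'
  have h3 : opp f + opp g * X ^ N = opp (f + g * X ^ N) := by
    rw [opp_add, opp_mul, opp_X_pow, (commute_X_pow (opp g) N).eq]
  rw [h3, ← opp_mul, ← opp_mul] at h1 h2
  exact ⟨N, u, v, u', v', prim_opp.1 hu, prim_opp.1 hu', opp_inj h1, opp_inj h2⟩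

end ore

end Pool.Agent.H8.Nag
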