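import Mathlib
import Pool.Agent.H8.Nag.Ore

/-!
# Nagata rings of distributive domains, 4: the localization
-/

set_option autoImplicit false

universe u v

namespace Pool.Agent.H8.Nag

open Pool.Agent.H8.Dist Polynomial

/-- the multiplicative set of the polynomials that no residue place kills -/
def primS (A : Type u) [Ring A] : Submonoid A[X] where
  carrier := {f | Prim f}
  mul_mem' := fun ha hb => Prim.mul ha hb
  one_mem' := Prim.one

/-- `ι : A[X] → B` is the localization at the polynomials that no residue place kills -/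
structure IsNag (A : Type u) [Ring A] (B : Type v) [Ring B] (ι : A[X] →+* B) : Prop where
  inj : Function.Injective ι
  unit : ∀ s, Prim s → IsUnit (ι s)
  fracL : ∀ b, ∃ s f, Prim s ∧ ι s * b = ι f
  fracR : ∀ b, ∃ s f, Prim s ∧ b * ι s = ι f

section exist
variable {A : Type u} [Ring A] [IsDomain A]

open OreLocalization in
theorem exists_nag (hR : RD A) (hL : LD A) :
    ∃ (B : Type u) (_ : Ring B) (ι : A[X] →+* B), IsNag A B ι := by
  have hore : Nonempty (OreSet (primS A)) := by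
    rw [nonempty_oreSet_iff_of_noZeroDivisors]
    intro r s
    obtain ⟨g, h, hg, hgh⟩ := ore_left hR hL r s s.2
    exact ⟨h, ⟨g, hg⟩, hgh⟩
  obtain ⟨inst⟩ := hore
  have hunit : ∀ s : A[X], Prim s →
      IsUnit ((numeratorRingHom (R := A[X]) (S := primS A)) s) := by
    intro s hs
    exact numerator_isUnit (⟨s, hs⟩ : primS A)
  have hfrac : ∀ b : OreLocalization (primS A) A[X], ∃ s f, Prim s ∧
      (numeratorRingHom (R := A[X]) (S := primS A)) s * b = numeratorRingHom f := by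
    intro b
    induction b using OreLocalization.ind with
    | _ f s =>
      refine ⟨s, f, s.2, ?_⟩
      show ((s : A[X]) /ₒ (1 : primS A)) * (f /ₒ s) = f /ₒ (1 : primS A)
      exact OreLocalization.mul_cancel
  refine ⟨OreLocalization (primS A) A[X], inferInstance, numeratorRingHom, ?_, hunit, hfrac, ?_⟩
  · apply numeratorHom_inj
    intro s hs x hx
    exact (mul_eq_zero.1 hx).resolve_left (Prim.ne_zero hL hs)
  · intro b
    obtain ⟨s, f, hs, hb⟩ := hfrac b
    obtain ⟨g, h, hg, hgh⟩ := ore_right hR hL f s hs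
    refine ⟨g, h, hg, ?_⟩
    apply (hunit s hs).mul_left_cancel
    rw [← mul_assoc, hb, ← map_mul, ← map_mul, hgh]

end exist

section opposite
variable {A : Type u} [Ring A] {B : Type v} [Ring B] {ι : A[X] →+* B}

/-- the opposite homomorphism -/
noncomputable def opι (ι : A[X] →+* B) : Aᵐᵒᵖ[X] →+* Bᵐᵒᵖ :=
  (RingHom.op ι).comp (opRingEquiv A).symm.toRingHom

theorem opι_opp (f : A[X]) : opι ι (opp f) = MulOpposite.op (ι f) := by
  unfold opι opp
  simp

theorem IsNag.op (h : IsNag A B ι) : IsNag Aᵐᵒᵖ Bᵐᵒᵖ (opι ι) where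
  inj := by
    intro f g hfg
    obtain ⟨f, rfl⟩ := opp_surj f
    obtain ⟨g, rfl⟩ := opp_surj g
    rw [opι_opp, opι_opp] at hfg
    rw [h.inj (MulOpposite.op_injective hfg)]
  unit := by
    intro s hs
    obtain ⟨s, rfl⟩ := opp_surj s
    rw [opι_opp]
    exact (h.unit s (prim_opp.1 hs)).op
  fracL := by
    intro b
    obtain ⟨s, f, hs, hb⟩ := h.fracR b.unop
    refine ⟨opp s, opp f, prim_opp.2 hs, ?_⟩
    rw [opι_opp, opι_opp, ← hb]
    simp
  fracR := by
    intro b
    obtain ⟨s, f, hs, hb⟩ := h.fracL b.unop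
    refine ⟨opp s, opp f, prim_opp.2 hs, ?_⟩
    rw [opι_opp, opι_opp, ← hb]
    simp

end opposite

section basic
variable {A : Type u} [Ring A] [IsDomain A] {B : Type v} [Ring B] {ι : A[X] →+* B}

omit [IsDomain A] in
theorem IsNag.ne_zero (h : IsNag A B ι) {f : A[X]} (hf : f ≠ 0) : ι f ≠ 0 :=
  fun h1 => hf (h.inj (by rw [h1, map_zero]))

theorem IsNag.nontrivial (h : IsNag A B ι) : Nontrivial B :=
  ⟨⟨ι 1, ι 0, fun h1 => one_ne_zero (h.inj h1)⟩⟩

omit [IsDomain A] in
theorem IsNag.cancelL (h : IsNag A B ι) {s : A[X]} (hs : Prim s) {x y : B}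
    (hxy : ι s * x = ι s * y) : x = y := (h.unit s hs).mul_left_cancel hxy

omit [IsDomain A] in
theorem IsNag.cancelR (h : IsNag A B ι) {s : A[X]} (hs : Prim s) {x y : B}
    (hxy : x * ι s = y * ι s) : x = y := (h.unit s hs).mul_right_cancel hxy

theorem IsNag.noZeroDiv (h : IsNag A B ι) {x y : B} (hxy : x * y = 0) : x = 0 ∨ y = 0 := by
  obtain ⟨s, f, hs, hf⟩ := h.fracL x
  obtain ⟨t, g, ht, hg⟩ := h.fracR y
  have h1 : ι (f * g) = ι 0 := by
    rw [map_mul, ← hf, ← hg, map_zero]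
    calc ι s * x * (y * ι t) = ι s * (x * y) * ι t := by noncomm_ring
      _ = 0 := by rw [hxy]; simp
  rcases mul_eq_zero.1 (h.inj h1) with h2 | h2
  · left
    apply h.cancelL hs
    rw [hf, h2]; simp
  · right
    apply h.cancelR ht
    rw [hg, h2]; simp

theorem IsNag.isDomain (h : IsNag A B ι) : IsDomain B := by
  have := h.nontrivial
  have : NoZeroDivisors B := ⟨fun {x y} hxy => h.noZeroDiv hxy⟩
  exact NoZeroDivisors.to_isDomain B

omit [IsDomain A] in
theorem IsNag.isUnit_iff (h : IsNag A B ι) (f : A[X]) : IsUnit (ι f) ↔ Prim f := by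
  refine ⟨fun hf => ?_, h.unit f⟩
  obtain ⟨u, hu⟩ := hf
  obtain ⟨s, g, hs, hg⟩ := h.fracR (↑u⁻¹ : B)
  have h1 : f * g = s := by
    apply h.inj
    rw [map_mul, ← hg, ← hu, ← mul_assoc]
    simp
  intro M hM
  by_contra hcon
  push Not at hcon
  obtain ⟨n, hn⟩ := hs M hM
  apply hn
  rw [← h1]
  exact coeff_mul_mem_left hM hcon n

/-- common left denominators of two elements -/
theorem IsNag.fracL₂ (h : IsNag A B ι) (hR : RD A) (hL : LD A) (x y : B) :
    ∃ s f g, Prim s ∧ ι s * x = ι f ∧ ι s * y = ι g := by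
  obtain ⟨s, f, hs, hf⟩ := h.fracL x
  obtain ⟨t, g, ht, hg⟩ := h.fracL y
  obtain ⟨p, q, hp, hpq⟩ := ore_left hR hL s t ht
  refine ⟨p * s, p * f, q * g, hp.mul hs, ?_, ?_⟩
  · rw [map_mul, map_mul, mul_assoc, hf]
  · rw [hpq, map_mul, map_mul, mul_assoc, hg]

/-- common right denominators of two elements -/
theorem IsNag.fracR₂ (h : IsNag A B ι) (hR : RD A) (hL : LD A) (x y : B) :
    ∃ s f g, Prim s ∧ x * ι s = ι f ∧ y * ι s = ι g := by
  obtain ⟨s, f, hs, hf⟩ := h.fracR x
  obtain ⟨t, g, ht, hg⟩ := h.fracR y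
  obtain ⟨p, q, hp, hpq⟩ := ore_right hR hL s t ht
  refine ⟨s * p, f * p, g * q, hs.mul hp, ?_, ?_⟩
  · rw [map_mul, map_mul, ← mul_assoc, hf]
  · rw [hpq, map_mul, map_mul, ← mul_assoc, hg]

/-- common right denominators of a finite family -/
theorem IsNag.fracR_fin (h : IsNag A B ι) (hR : RD A) (hL : LD A) {n : ℕ} (x : Fin n → B) :
    ∃ (s : A[X]) (f : Fin n → A[X]), Prim s ∧ ∀ i, x i * ι s = ι (f i) := by
  induction n with
  | zero => exact ⟨1, fun i => i.elim0, Prim.one, fun i => i.elim0⟩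
  | succ n ih =>
    obtain ⟨s, f, hs, hf⟩ := ih (fun i => x i.succ)
    obtain ⟨t, g, ht, hg⟩ := h.fracR (x 0)
    obtain ⟨p, q, hp, hpq⟩ := ore_right hR hL s t ht
    refine ⟨s * p, Fin.cons (g * q) (fun i => f i * p), hs.mul hp, ?_⟩
    intro i
    refine Fin.cases ?_ (fun i => ?_) i
    · simp only [Fin.cons_zero]
      rw [hpq, map_mul, map_mul, ← mul_assoc, hg]
    · simp only [Fin.cons_succ]
      rw [map_mul, map_mul, ← mul_assoc, hf i]

/-- two elements of `B` have a greatest common left divisor -/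
theorem IsNag.bez_right (h : IsNag A B ι) (hR : RD A) (hL : LD A) (x y : B) :
    ∃ w p q v v', w = x * p + y * q ∧ x = w * v ∧ y = w * v' := by
  obtain ⟨s, f, g, hs, hf, hg⟩ := h.fracL₂ hR hL x y
  by_cases h0 : f = 0 ∧ g = 0
  · have hx : x = 0 := by apply h.cancelL hs; rw [hf, h0.1]; simp
    have hy : y = 0 := by apply h.cancelL hs; rw [hg, h0.2]; simp
    exact ⟨0, 0, 0, 0, 0, by simp, by simp [hx], by simp [hy]⟩
  · have h0' : f ≠ 0 ∨ g ≠ 0 := by
      by_contra hcon
      push Not at hcon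
      exact h0 hcon
    obtain ⟨N, u, v, u', v', hu, hu', h1, h2⟩ := bezP_right hR hL f g h0'
    obtain ⟨U, hU⟩ := h.unit u hu
    obtain ⟨U', hU'⟩ := h.unit u' hu'
    refine ⟨x + y * ι (X ^ N), 1, ι (X ^ N), ι v * ↑U⁻¹, ι v' * ↑U'⁻¹, by simp, ?_, ?_⟩
    · apply h.cancelL hs
      have h3 : ι (f * u) = ι ((f + g * X ^ N) * v) := by rw [h1]
      rw [map_mul, map_mul, map_add, map_mul, ← hf, ← hg, ← hU] at h3
      have h4 := congrArg (fun z => z * (↑U⁻¹ : B)) h3
      simp only [mul_assoc, Units.mul_inv, mul_one] at h4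
      rw [h4]
      noncomm_ring
    · apply h.cancelL hs
      have h3 : ι (g * u') = ι ((f + g * X ^ N) * v') := by rw [h2]
      rw [map_mul, map_mul, map_add, map_mul, ← hf, ← hg, ← hU'] at h3
      have h4 := congrArg (fun z => z * (↑U'⁻¹ : B)) h3
      simp only [mul_assoc, Units.mul_inv, mul_one] at h4
      rw [h4]
      noncomm_ring

theorem IsNag.bez_left (h : IsNag A B ι) (hR : RD A) (hL : LD A) (x y : B) :
    ∃ w p q v v', w = p * x + q * y ∧ x = v * w ∧ y = v' * w := by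
  obtain ⟨w, p, q, v, v', h1, h2, h3⟩ := h.op.bez_right (RD_op hL) (LD_op hR)
    (MulOpposite.op x) (MulOpposite.op y)
  refine ⟨w.unop, p.unop, q.unop, v.unop, v'.unop, ?_, ?_, ?_⟩
  · rw [h1]; simp
  · have := congrArg MulOpposite.unop h2
    simpa using this
  · have := congrArg MulOpposite.unop h3
    simpa using this

end basic

end Pool.Agent.H8.Nag
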