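import Mathlib
import Pool.Agent.H8.Nag.Loc

/-!
# Nagata rings of distributive domains, 5: the maximal ideals of the localization
-/

set_option autoImplicit false

universe u v

namespace Pool.Agent.H8.Nag

open Pool.Agent.H8.Dist Polynomial

/-- all coefficients of `f` lie in `M` -/
def InP {A : Type u} [Ring A] (M : Set A) (f : A[X]) : Prop := ∀ n, f.coeff n ∈ M

section inp
variable {A : Type u} [Ring A] {M : Set A}

theorem InP.zero (hM : IsRes A M) : InP M (0 : A[X]) := fun n => by simpa using hM.zero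

theorem InP.add (hM : IsRes A M) {f g : A[X]} (hf : InP M f) (hg : InP M g) : InP M (f + g) :=
  fun n => by rw [coeff_add]; exact hM.add _ (hf n) _ (hg n)

theorem InP.mulR (hM : IsRes A M) {f : A[X]} (hf : InP M f) (g : A[X]) : InP M (f * g) :=
  coeff_mul_mem_left hM hf

theorem InP.mulL (hM : IsRes A M) {f : A[X]} (hf : InP M f) (g : A[X]) : InP M (g * f) :=
  coeff_mul_mem_right hM hf

theorem InP.or (hM : IsRes A M) {f g : A[X]} (h : InP M (f * g)) : InP M f ∨ InP M g := by
  by_contra hcon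
  rw [not_or] at hcon
  unfold InP at hcon
  push Not at hcon
  obtain ⟨k, hk⟩ := gauss hM hcon.1 hcon.2
  exact hk (h k)

theorem Prim.notInP (hM : IsRes A M) {s : A[X]} (hs : Prim s) : ¬ InP M s := by
  obtain ⟨n, hn⟩ := hs M hM
  exact fun h => hn (h n)

theorem inP_one (hM : IsRes A M) : ¬ InP M (1 : A[X]) := Prim.one.notInP hM

theorem inP_mul_iffL (hM : IsRes A M) {s f : A[X]} (hs : ¬ InP M s) :
    InP M (s * f) ↔ InP M f :=
  ⟨fun h => (h.or hM).resolve_left hs, fun h => h.mulL hM s⟩

theorem inP_mul_iffR (hM : IsRes A M) {s f : A[X]} (hs : ¬ InP M s) :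
    InP M (f * s) ↔ InP M f :=
  ⟨fun h => (h.or hM).resolve_right hs, fun h => h.mulR hM s⟩

end inp

section ext
variable {A : Type u} [Ring A] [IsDomain A] {B : Type v} [Ring B] {ι : A[X] →+* B} {M : Set A}

/-- the place of `B` over a residue place of `A` -/
def ext (ι : A[X] →+* B) (M : Set A) : Set B :=
  {b | ∃ s f, Prim s ∧ ι s * b = ι f ∧ InP M f}

theorem mem_ext_left (h : IsNag A B ι) (hR : RD A) (hL : LD A) (hM : IsRes A M)
    {s f : A[X]} {b : B} (hs : ¬ InP M s) (hb : ι s * b = ι f) : b ∈ ext ι M ↔ InP M f := by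
  have key : ∀ s' f' : A[X], Prim s' → ι s' * b = ι f' → (InP M f' ↔ InP M f) := by
    intro s' f' hs' hb'
    obtain ⟨p, q, hp, hpq⟩ := ore_left hR hL s s' hs'
    have h1 : p * f = q * f' := by
      apply h.inj
      rw [map_mul, map_mul, ← hb, ← hb', ← mul_assoc, ← mul_assoc, ← map_mul, ← map_mul, hpq]
    have hq : ¬ InP M q := by
      intro hq
      have h2 : InP M (p * s) := by rw [hpq]; exact hq.mulR hM _
      exact hs ((h2.or hM).resolve_left (hp.notInP hM))
    rw [← inP_mul_iffL hM hq, ← h1, inP_mul_iffL hM (hp.notInP hM)]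
  constructor
  · rintro ⟨s', f', hs', hb', hf'⟩
    exact (key s' f' hs' hb').1 hf'
  · intro hf
    obtain ⟨s', f', hs', hb'⟩ := h.fracL b
    exact ⟨s', f', hs', hb', (key s' f' hs' hb').2 hf⟩

theorem mem_ext (h : IsNag A B ι) (hR : RD A) (hL : LD A) (hM : IsRes A M)
    {s t f : A[X]} {b : B} (hs : ¬ InP M s) (ht : ¬ InP M t) (hb : ι s * b * ι t = ι f) :
    b ∈ ext ι M ↔ InP M f := by
  obtain ⟨s', f', hs', hb'⟩ := h.fracL b
  obtain ⟨p, q, hp, hpq⟩ := ore_left hR hL s s' hs'
  rw [mem_ext_left h hR hL hM (hs'.notInP hM) hb']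
  have h1 : p * f = q * f' * t := by
    apply h.inj
    rw [map_mul, map_mul, map_mul, ← hb, ← hb']
    have h2 : ι p * ι s = ι q * ι s' := by rw [← map_mul, ← map_mul, hpq]
    calc ι p * (ι s * b * ι t) = (ι p * ι s) * b * ι t := by noncomm_ring
      _ = ι q * (ι s' * b) * ι t := by rw [h2]; noncomm_ring
  have hq : ¬ InP M q := by
    intro hq
    have h2 : InP M (p * s) := by rw [hpq]; exact hq.mulR hM _
    exact hs ((h2.or hM).resolve_left (hp.notInP hM))
  have e1 := inP_mul_iffL hM (f := f) (hp.notInP hM)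
  rw [h1] at e1
  rw [← e1, inP_mul_iffR hM ht, inP_mul_iffL hM hq]

theorem mem_ext_right (h : IsNag A B ι) (hR : RD A) (hL : LD A) (hM : IsRes A M)
    {t f : A[X]} {b : B} (ht : ¬ InP M t) (hb : b * ι t = ι f) : b ∈ ext ι M ↔ InP M f :=
  mem_ext h hR hL hM (inP_one hM) ht (by rw [map_one, one_mul, hb])

theorem mem_ext_ι (h : IsNag A B ι) (hR : RD A) (hL : LD A) (hM : IsRes A M) (f : A[X]) :
    ι f ∈ ext ι M ↔ InP M f :=
  mem_ext_left h hR hL hM (inP_one hM) (by rw [map_one, one_mul])

/-- every residue place of `A` extends to a residue place of `B` -/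
theorem isRes_ext (h : IsNag A B ι) (hR : RD A) (hL : LD A) (hM : IsRes A M) :
    IsRes B (ext ι M) := by
  have hzero : (0 : B) ∈ ext ι M := ⟨1, 0, Prim.one, by simp, InP.zero hM⟩
  have hadd : ∀ x ∈ ext ι M, ∀ y ∈ ext ι M, x + y ∈ ext ι M := by
    intro x hx y hy
    obtain ⟨s, f, g, hs, hf, hg⟩ := h.fracL₂ hR hL x y
    rw [mem_ext_left h hR hL hM (hs.notInP hM) hf] at hx
    rw [mem_ext_left h hR hL hM (hs.notInP hM) hg] at hy
    exact ⟨s, f + g, hs, by rw [mul_add, hf, hg, map_add], hx.add hM hy⟩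
  have hmulL : ∀ a, ∀ x ∈ ext ι M, a * x ∈ ext ι M := by
    intro a x hx
    obtain ⟨s, f, hs, hf⟩ := h.fracL a
    obtain ⟨t, g, ht, hg⟩ := h.fracR x
    rw [mem_ext_right h hR hL hM (ht.notInP hM) hg] at hx
    rw [mem_ext h hR hL hM (hs.notInP hM) (ht.notInP hM) (f := f * g)]
    · exact hx.mulL hM f
    · rw [map_mul, ← hf, ← hg]; noncomm_ring
  have hmulR : ∀ a, ∀ x ∈ ext ι M, x * a ∈ ext ι M := by
    intro a x hx
    obtain ⟨s, f, hs, hf⟩ := h.fracL x
    obtain ⟨t, g, ht, hg⟩ := h.fracR a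
    rw [mem_ext_left h hR hL hM (hs.notInP hM) hf] at hx
    rw [mem_ext h hR hL hM (hs.notInP hM) (ht.notInP hM) (f := f * g)]
    · exact hx.mulR hM g
    · rw [map_mul, ← hf, ← hg]; noncomm_ring
  have hone : (1 : B) ∉ ext ι M := by
    rw [← map_one ι, mem_ext_ι h hR hL hM]
    exact inP_one hM
  have hneg : ∀ x ∈ ext ι M, -x ∈ ext ι M := by
    intro x hx
    have := hmulL (-1) x hx
    simpa using this
  have hinv : ∀ x, x ∉ ext ι M → ∃ y, y * x - 1 ∈ ext ι M := by
    intro x hx
    obtain ⟨s, f, hs, hf⟩ := h.fracL x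
    rw [mem_ext_left h hR hL hM (hs.notInP hM) hf] at hx
    unfold InP at hx
    push Not at hx
    obtain ⟨k, hk⟩ := hx
    obtain ⟨y₀, -, hy₀⟩ := hM.inv _ hk
    have hP : Prim2 f (C (y₀ * f.coeff k - 1)) := by
      intro M' hM'
      by_cases h1 : ∃ n, f.coeff n ∉ M'
      · exact Or.inl h1
      · right
        push Not at h1
        refine ⟨0, ?_⟩
        rw [coeff_C_zero]
        intro h2
        apply hM'.one
        have h3 := hM'.sub (hM'.mul_left y₀ _ (h1 k)) h2
        simpa using h3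
    have hP' := prim_add hP (Nat.lt_succ_self f.natDegree)
    obtain ⟨U, hU⟩ := h.unit _ hP'
    refine ⟨↑U⁻¹ * ι s, ?_⟩
    have h4 : (↑U⁻¹ : B) * ι s * x - 1 =
        -(↑U⁻¹ * ι (C (y₀ * f.coeff k - 1) * X ^ f.natDegree.succ)) := by
      have h5 : (↑U⁻¹ : B) * ι (f + C (y₀ * f.coeff k - 1) * X ^ f.natDegree.succ) = 1 := by
        rw [← hU]; simp
      rw [mul_assoc, hf, ← h5, map_add]
      noncomm_ring
    rw [h4]
    apply hneg
    apply hmulL
    rw [mem_ext_ι h hR hL hM]
    apply InP.mulR hM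
    intro n
    rw [coeff_C]
    split_ifs
    · exact hy₀
    · exact hM.zero
  refine ⟨hzero, hadd, hmulL, hmulR, hone, ?_⟩
  intro x hx
  obtain ⟨y, hy⟩ := hinv x hx
  have hyM : y ∉ ext ι M := by
    intro h1
    apply hone
    have h2 := hadd _ (hmulR x _ h1) _ (hneg _ hy)
    have h3 : y * x + -(y * x - 1) = 1 := by noncomm_ring
    rwa [h3] at h2
  obtain ⟨z, hz⟩ := hinv y hyM
  refine ⟨y, ?_, hy⟩
  have e : x * y - 1 = -((z * y - 1) * (x * y)) + z * (y * x - 1) * y + (z * y - 1) := by
    noncomm_ring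
  rw [e]
  exact hadd _ (hadd _ (hneg _ (hmulR _ _ hz)) _ (hmulR _ _ (hmulL _ _ hy))) _ hz

omit [IsDomain A] in
/-- every proper left ideal of `B` lies in the place over some residue place of `A` -/
theorem exists_ext_of_left (h : IsNag A B ι) (hL : LD A) (H : Ideal B)
    (h1 : (1 : B) ∉ H) : ∃ M : Set A, IsRes A M ∧ (H : Set B) ⊆ ext ι M := by
  classical
  set Y : Set A := {x | ∃ f : A[X], ι f ∈ H ∧ ∃ k, x = f.coeff k} with hY
  have h2 : (1 : A) ∉ Submodule.span A Y := by
    intro h2
    obtain ⟨F, hF, h3⟩ := Submodule.mem_span_finite_of_mem_span h2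
    have key : ∀ G : Finset A, (G : Set A) ⊆ Y → ∃ f : A[X], ι f ∈ H ∧
        ∀ M, IsRes A M → InP M f → ∀ x ∈ G, x ∈ M := by
      intro G
      induction G using Finset.induction_on with
      | empty => intro _; exact ⟨0, by simp, fun M _ _ x hx => absurd hx (Finset.notMem_empty x)⟩
      | insert a G ha ih =>
        intro hG
        obtain ⟨f, hf, hfM⟩ := ih (fun x hx => hG (by simp [Finset.mem_coe.1 hx]))
        obtain ⟨g, hg, k, hk⟩ := hG (show a ∈ (↑(insert a G) : Set A) by simp)
        refine ⟨f + g * X ^ f.natDegree.succ, ?_, ?_⟩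
        · rw [map_add, ← (commute_X_pow g f.natDegree.succ).eq, map_mul]
          exact H.add_mem hf (H.mul_mem_left _ hg)
        · intro M hM hin
          have h4 : InP M f := by
            intro n
            by_cases hn : n < f.natDegree.succ
            · have := hin n
              rw [coeff_add, coeff_mul_X_pow', if_neg (by omega), add_zero] at this
              exact this
            · rw [coeff_eq_zero_of_natDegree_lt (by omega)]
              exact hM.zero
          have h5 : InP M g := by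
            intro n
            have := hin (n + f.natDegree.succ)
            rw [coeff_add, coeff_mul_X_pow, coeff_eq_zero_of_natDegree_lt (by omega),
              zero_add] at this
            exact this
          intro x hx
          rw [Finset.mem_insert] at hx
          rcases hx with rfl | hx
          · rw [hk]; exact h5 k
          · exact hfM M hM h4 x hx
    obtain ⟨f, hf, hfM⟩ := key F hF
    have hP : Prim f := by
      intro M hM
      by_contra hcon
      push Not at hcon
      have h4 := hfM M hM hcon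
      apply hM.one
      refine Submodule.span_induction (p := fun y _ => y ∈ M) (fun x hx => h4 x hx) hM.zero
        (fun x y _ _ hx hy => hM.add _ hx _ hy) (fun a x _ hx => hM.mul_left a _ hx) h3
    obtain ⟨U, hU⟩ := h.unit f hP
    apply h1
    have h5 : (1 : B) = ↑U⁻¹ * ι f := by rw [← hU]; simp
    rw [h5]
    exact H.mul_mem_left _ hf
  obtain ⟨M, hM, hsub⟩ := exists_res_of_left hL _ h2
  refine ⟨M, hM, ?_⟩
  intro b hb
  obtain ⟨s, f, hs, hf⟩ := h.fracL b
  refine ⟨s, f, hs, hf, ?_⟩
  intro n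
  apply hsub
  apply Submodule.subset_span
  refine ⟨f, ?_, n, rfl⟩
  rw [← hf]
  exact H.mul_mem_left _ hb

end ext

end Pool.Agent.H8.Nag
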