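import Mathlib
import Pool.Agent.H8.Nag.Res

/-!
# Nagata rings of distributive domains, 6: distributivity, Bezout, flatness, purity
-/

set_option autoImplicit false

universe u v

namespace Pool.Agent.H8.Nag

open Pool.Agent.H8.Dist Polynomial

section right
variable {A : Type u} [Ring A] [IsDomain A] {B : Type v} [Ring B] {ι : A[X] →+* B} {M : Set A}

omit [IsDomain A] in
theorem mem_ext_op_left {b : B} {M : Set Aᵐᵒᵖ}
    (hb : MulOpposite.op b ∈ ext (opι ι) M) :
    ∃ s f, Prim s ∧ b * ι s = ι f ∧ InP (MulOpposite.op ⁻¹' M) f := by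
  obtain ⟨s, f, hs, hf, hM'⟩ := hb
  obtain ⟨s, rfl⟩ := opp_surj s
  obtain ⟨f, rfl⟩ := opp_surj f
  rw [opι_opp, opι_opp] at hf
  refine ⟨s, f, prim_opp.1 hs, MulOpposite.op_injective (by simpa using hf), ?_⟩
  intro n
  have := hM' n
  rw [coeff_opp] at this
  exact this

/-- every proper right ideal of `B` lies in the place over some residue place of `A` -/
theorem exists_ext_of_right (h : IsNag A B ι) (hR : RD A) (hL : LD A) (T : Set B)
    (hadd : ∀ x ∈ T, ∀ y ∈ T, x + y ∈ T) (hzero : (0 : B) ∈ T)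
    (hmul : ∀ x ∈ T, ∀ b, x * b ∈ T) (h1 : (1 : B) ∉ T) :
    ∃ M : Set A, IsRes A M ∧ T ⊆ ext ι M := by
  let H : Ideal Bᵐᵒᵖ :=
    { carrier := {x | x.unop ∈ T}
      zero_mem' := hzero
      add_mem' := fun {x y} hx hy => hadd _ hx _ hy
      smul_mem' := fun c x hx => by
        have := hmul _ hx c.unop
        simpa using this }
  obtain ⟨M, hM, hsub⟩ := exists_ext_of_left h.op (LD_op hR) H (fun h2 => h1 h2)
  refine ⟨_, isRes_unop hM, ?_⟩
  intro b hb
  obtain ⟨s, f, hs, hf, hin⟩ := mem_ext_op_left (hsub (show MulOpposite.op b ∈ H from hb))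
  exact (mem_ext_right h hR hL (isRes_unop hM) (hs.notInP (isRes_unop hM)) hf).2 hin

theorem nag_RD (h : IsNag A B ι) (hR : RD A) (hL : LD A) : RD B := by
  intro x y
  have := h.isDomain
  set T : Set B := {t | ∃ p q r s, t = p + r ∧ x * p = y * q ∧ y * r = x * s} with hT
  have hTadd : ∀ a ∈ T, ∀ b ∈ T, a + b ∈ T := by
    rintro _ ⟨p, q, r, s, rfl, h1, h2⟩ _ ⟨p', q', r', s', rfl, h1', h2'⟩
    exact ⟨p + p', q + q', r + r', s + s', by abel, by rw [mul_add, mul_add, h1, h1'],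
      by rw [mul_add, mul_add, h2, h2']⟩
  have hTmul : ∀ a ∈ T, ∀ b, a * b ∈ T := by
    rintro _ ⟨p, q, r, s, rfl, h1, h2⟩ b
    exact ⟨p * b, q * b, r * b, s * b, by rw [add_mul], by rw [← mul_assoc, h1, mul_assoc],
      by rw [← mul_assoc, h2, mul_assoc]⟩
  by_cases h1 : (1 : B) ∈ T
  · obtain ⟨p, q, r, s, h2, h3, h4⟩ := h1
    refine ⟨p, q, s, h3, ?_⟩
    rw [h2, add_sub_cancel_left, h4]
  · exfalso
    obtain ⟨M, hM, hsub⟩ := exists_ext_of_right h hR hL T hTadd
      ⟨0, 0, 0, 0, by simp, by simp, by simp⟩ hTmul h1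
    obtain ⟨u, f, g, hu, hf, hg⟩ := h.fracR₂ hR hL x y
    by_cases hf0 : f = 0
    · apply h1
      refine ⟨1, 0, 0, 0, by simp, ?_, by simp⟩
      apply h.cancelR hu
      rw [mul_one, hf, hf0]; simp
    by_cases hg0 : g = 0
    · apply h1
      refine ⟨0, 0, 1, 0, by simp, by simp, ?_⟩
      apply h.cancelR hu
      rw [mul_one, hg, hg0]; simp
    obtain ⟨w₀, w₀', hw₀, hw₀', h2⟩ := pore_right hR f g hf0 hg0
    obtain ⟨a, r, w, w', ha, hr, h3, h4, h5⟩ := scaleP_right hR hL w₀ w₀' (Or.inl hw₀)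
    have h6 : f * w = g * w' := by
      apply mul_right_cancel₀ (C_ne_zero.2 ha : (C a : A[X]) ≠ 0)
      rw [mul_assoc, h3, mul_assoc, h4, ← mul_assoc, ← mul_assoc, h2]
    have h7 : x * ι (u * w) = y * ι (u * w') := by
      rw [map_mul, map_mul, ← mul_assoc, ← mul_assoc, hf, hg, ← map_mul, ← map_mul, h6]
    have h8 : ι (u * w) ∈ T := ⟨_, _, 0, 0, by simp, h7, by simp⟩
    have h9 : ι (u * w') ∈ T := ⟨0, 0, _, _, by simp, by simp, h7.symm⟩
    have h10 := (mem_ext_ι h hR hL hM _).1 (hsub h8)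
    have h11 := (mem_ext_ι h hR hL hM _).1 (hsub h9)
    rw [inP_mul_iffL hM (hu.notInP hM)] at h10 h11
    rcases h5 M hM with ⟨n, hn⟩ | ⟨n, hn⟩
    · exact hn (h10 n)
    · exact hn (h11 n)

theorem nag_LD (h : IsNag A B ι) (hR : RD A) (hL : LD A) : LD B := by
  have h1 := nag_RD h.op (RD_op hL) (LD_op hR)
  intro x y
  obtain ⟨p, q, r, h2, h3⟩ := h1 (MulOpposite.op x) (MulOpposite.op y)
  refine ⟨p.unop, q.unop, r.unop, ?_, ?_⟩
  · have := congrArg MulOpposite.unop h2
    simpa using this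
  · have := congrArg MulOpposite.unop h3
    simpa using this

end right

section lattice
variable {R : Type u} [Ring R]

theorem lattice_of_LD (hL : LD R) (I J K : Submodule R R) :
    I ⊓ (J ⊔ K) = (I ⊓ J) ⊔ (I ⊓ K) := by
  apply le_antisymm _ le_inf_sup
  rintro z ⟨hI, hJK⟩
  obtain ⟨j, hj, k, hk, rfl⟩ := Submodule.mem_sup.1 hJK
  obtain ⟨p, q, r, h1, h2⟩ := hL j k
  have e : j + k = (1 - p) * (j + k) + p * (j + k) := by noncomm_ring
  rw [e]
  apply Submodule.add_mem_sup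
  · refine ⟨I.smul_mem _ hI, ?_⟩
    rw [mul_add, h2, ← add_mul]
    exact J.smul_mem _ hj
  · refine ⟨I.smul_mem _ hI, ?_⟩
    rw [mul_add, h1, ← add_mul]
    exact K.smul_mem _ hk

theorem lattice_of_RD (hR : RD R) (I J K : Submodule Rᵐᵒᵖ R) :
    I ⊓ (J ⊔ K) = (I ⊓ J) ⊔ (I ⊓ K) := by
  apply le_antisymm _ le_inf_sup
  rintro z ⟨hI, hJK⟩
  obtain ⟨j, hj, k, hk, rfl⟩ := Submodule.mem_sup.1 hJK
  obtain ⟨p, q, r, h1, h2⟩ := hR j k
  have e : j + k = (j + k) * (1 - p) + (j + k) * p := by noncomm_ring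
  rw [e]
  apply Submodule.add_mem_sup
  · refine ⟨I.smul_mem (MulOpposite.op (1 - p)) hI, ?_⟩
    rw [add_mul, h2, ← mul_add]
    exact J.smul_mem (MulOpposite.op _) hj
  · refine ⟨I.smul_mem (MulOpposite.op p) hI, ?_⟩
    rw [add_mul, h1, ← mul_add]
    exact K.smul_mem (MulOpposite.op _) hk

theorem principal_left (hB : ∀ x y : R, ∃ w p q v v', w = p * x + q * y ∧ x = v * w ∧ y = v' * w)
    (I : Submodule R R) (hI : I.FG) : ∃ w, I = Submodule.span R {w} := by
  refine Submodule.fg_induction (motive := fun I _ => ∃ w, I = Submodule.span R {w})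
    (fun x => ⟨x, rfl⟩) ?_ I hI
  rintro I J - - ⟨x, rfl⟩ ⟨y, rfl⟩
  obtain ⟨w, p, q, v, v', h1, h2, h3⟩ := hB x y
  refine ⟨w, le_antisymm (sup_le ?_ ?_) ?_⟩
  · rw [Submodule.span_singleton_le_iff_mem, h2]
    exact Submodule.smul_mem _ v (Submodule.mem_span_singleton_self w)
  · rw [Submodule.span_singleton_le_iff_mem, h3]
    exact Submodule.smul_mem _ v' (Submodule.mem_span_singleton_self w)
  · rw [Submodule.span_singleton_le_iff_mem, h1]
    exact Submodule.add_mem_sup (Submodule.smul_mem _ p (Submodule.mem_span_singleton_self x))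
      (Submodule.smul_mem _ q (Submodule.mem_span_singleton_self y))

theorem principal_right
    (hB : ∀ x y : R, ∃ w p q v v', w = x * p + y * q ∧ x = w * v ∧ y = w * v')
    (I : Submodule Rᵐᵒᵖ R) (hI : I.FG) : ∃ w, I = Submodule.span Rᵐᵒᵖ {w} := by
  refine Submodule.fg_induction (motive := fun I _ => ∃ w, I = Submodule.span Rᵐᵒᵖ {w})
    (fun x => ⟨x, rfl⟩) ?_ I hI
  rintro I J - - ⟨x, rfl⟩ ⟨y, rfl⟩
  obtain ⟨w, p, q, v, v', h1, h2, h3⟩ := hB x y
  refine ⟨w, le_antisymm (sup_le ?_ ?_) ?_⟩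
  · rw [Submodule.span_singleton_le_iff_mem, h2]
    exact Submodule.smul_mem _ (MulOpposite.op v) (Submodule.mem_span_singleton_self w)
  · rw [Submodule.span_singleton_le_iff_mem, h3]
    exact Submodule.smul_mem _ (MulOpposite.op v') (Submodule.mem_span_singleton_self w)
  · rw [Submodule.span_singleton_le_iff_mem, h1]
    exact Submodule.add_mem_sup
      (Submodule.smul_mem _ (MulOpposite.op p) (Submodule.mem_span_singleton_self x))
      (Submodule.smul_mem _ (MulOpposite.op q) (Submodule.mem_span_singleton_self y))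

end lattice

section flat
variable {A : Type u} [Ring A] [IsDomain A] {B : Type v} [Ring B] {ι : A[X] →+* B}

/-- equational criterion of flatness, coefficients on the left -/
theorem nag_flat (h : IsNag A B ι) (hR : RD A) (hL : LD A) {n : ℕ} (a : Fin n → A)
    (x : Fin n → B) (hx : ∑ i, ι (C (a i)) * x i = 0) :
    ∃ (m : ℕ) (α : Fin n → Fin m → A) (z : Fin m → B),
      (∀ i, x i = ∑ j, ι (C (α i j)) * z j) ∧ ∀ j, ∑ i, a i * α i j = 0 := by
  obtain ⟨s, f, hs, hf⟩ := h.fracR_fin hR hL x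
  obtain ⟨U, hU⟩ := h.unit s hs
  have h1 : ∑ i, C (a i) * f i = 0 := by
    apply h.inj
    rw [map_sum, map_zero]
    have : ∀ i, ι (C (a i) * f i) = ι (C (a i)) * x i * ι s := fun i => by
      rw [map_mul, ← hf i, mul_assoc]
    simp only [this]
    rw [← Finset.sum_mul, hx, zero_mul]
  obtain ⟨N, hN⟩ : ∃ N, ∀ i, (f i).natDegree < N := by
    refine ⟨Finset.univ.sup (fun i => (f i).natDegree) + 1, fun i => ?_⟩
    have : (f i).natDegree ≤ Finset.univ.sup (fun i => (f i).natDegree) :=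
      Finset.le_sup (f := fun i => (f i).natDegree) (Finset.mem_univ i)
    omega
  refine ⟨N, fun i j => (f i).coeff j, fun j => ι (X ^ (j : ℕ)) * ↑U⁻¹, ?_, ?_⟩
  · intro i
    have h2 : x i = ι (f i) * ↑U⁻¹ := by
      rw [← hf i, ← hU, mul_assoc, Units.mul_inv, mul_one]
    have h3 : f i = ∑ j : Fin N, C ((f i).coeff j) * X ^ (j : ℕ) := by
      conv_lhs => rw [(f i).as_sum_range_C_mul_X_pow' (hN i)]
      rw [Finset.sum_range]
    rw [h2]
    conv_lhs => rw [h3]
    rw [map_sum, Finset.sum_mul]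
    refine Finset.sum_congr rfl fun j _ => ?_
    rw [map_mul, mul_assoc]
  · intro j
    have := congrArg (fun p => coeff p (j : ℕ)) h1
    simp only [finsetSum_coeff, coeff_C_mul, coeff_zero] at this
    exact this

/-- a finite linear system over `A`, coefficients on the left, solvable in `B`, is solvable
in `A` -/
theorem nag_pure (h : IsNag A B ι) (hR : RD A) (hL : LD A) {m n : ℕ} (α : Fin m → Fin n → A)
    (c : Fin m → A) (x : Fin n → B) (hx : ∀ i, ∑ j, ι (C (α i j)) * x j = ι (C (c i))) :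
    ∃ y : Fin n → A, ∀ i, ∑ j, α i j * y j = c i := by
  obtain ⟨s, f, hs, hf⟩ := h.fracR_fin hR hL x
  have h1 : ∀ i, ∑ j, C (α i j) * f j = C (c i) * s := by
    intro i
    apply h.inj
    rw [map_sum, map_mul, ← hx i, Finset.sum_mul]
    refine Finset.sum_congr rfl fun j _ => ?_
    rw [map_mul, ← hf j, mul_assoc]
  let T : Submodule Aᵐᵒᵖ A :=
    { carrier := {t | ∃ y : Fin n → A, ∀ i, ∑ j, α i j * y j = c i * t}
      zero_mem' := ⟨0, fun i => by simp⟩
      add_mem' := by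
        rintro t t' ⟨y, hy⟩ ⟨y', hy'⟩
        refine ⟨y + y', fun i => ?_⟩
        rw [mul_add, ← hy i, ← hy' i, ← Finset.sum_add_distrib]
        refine Finset.sum_congr rfl fun j _ => ?_
        rw [Pi.add_apply, mul_add]
      smul_mem' := by
        rintro b t ⟨y, hy⟩
        refine ⟨fun j => y j * b.unop, fun i => ?_⟩
        rw [MulOpposite.smul_eq_mul_unop, ← mul_assoc, ← hy i, Finset.sum_mul]
        refine Finset.sum_congr rfl fun j _ => ?_
        rw [mul_assoc] }
  by_cases hT : (1 : A) ∈ T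
  · obtain ⟨y, hy⟩ := hT
    exact ⟨y, fun i => by rw [hy i, mul_one]⟩
  · exfalso
    obtain ⟨M, hM, hsub⟩ := exists_res_of_right hR T hT
    obtain ⟨k, hk⟩ := hs M hM
    apply hk
    apply hsub
    refine ⟨fun j => (f j).coeff k, fun i => ?_⟩
    have := congrArg (fun p => coeff p k) (h1 i)
    simp only [finsetSum_coeff, coeff_C_mul] at this
    exact this

end flat

end Pool.Agent.H8.Nag
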